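import Pool.Agent.Q278.E8Oct

/-!
# MP_75a6b7: a strongly regular graph with `χ_q < χ`

The orthogonality graph of the 120 lines spanned by the roots of `E8` is strongly regular with
parameters `(120, 63, 30, 36)`, has quantum chromatic number exactly `8` and chromatic number at
least `14`.
-/

namespace Pool.Agent.Results.MP_75a6b7_co.SrgQuantumGap

open Matrix

/-- `P` is a quantum `c`-colouring of `G` in dimension `d`: orthogonal projections `P v i` on
`ℂ^d`, summing to the identity over the colours at every vertex, and `P v i * P w i = 0` for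
every edge `vw` and every colour `i`. -/
structure IsQuantumColouring {V : Type*} (G : SimpleGraph V) (c d : ℕ)
    (P : V → Fin c → Matrix (Fin d) (Fin d) ℂ) : Prop where
  hermitian : ∀ v i, (P v i)ᴴ = P v i
  idempotent : ∀ v i, P v i * P v i = P v i
  complete : ∀ v, ∑ i, P v i = 1
  orthogonal : ∀ v w, G.Adj v w → ∀ i, P v i * P w i = 0

/-- The quantum chromatic number: the least `c ≥ 1` such that a quantum `c`-colouring exists in
some dimension `d ≥ 1`. -/
noncomputable def quantumChromaticNumber {V : Type*} (G : SimpleGraph V) : ℕ :=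
  sInf {c : ℕ | 1 ≤ c ∧ ∃ d : ℕ, 1 ≤ d ∧ ∃ P : V → Fin c → Matrix (Fin d) (Fin d) ℂ,
    IsQuantumColouring G c d P}

open Q278.E8 in
/-- The quantum 8-colouring of the `E8` graph in dimension 8. -/
noncomputable def proj (v : Fin 120) (i : Fin 8) : Matrix (Fin 8) (Fin 8) ℂ :=
  fun j k => ((A i (root v) j * A i (root v) k : ℤ) : ℂ) / 8

open Q278.E8 in
theorem proj_mul (v w : Fin 120) (i : Fin 8) (j k : Fin 8) :
    (proj v i * proj w i) j k
      = ((A i (root v) j * A i (root w) k * dot (root v) (root w) : ℤ) : ℂ) / 64 := by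
  rw [Matrix.mul_apply, ← dot_A i (root v) (root w)]
  simp only [proj, dot]
  push_cast
  rw [Finset.mul_sum, Finset.sum_div]
  refine Finset.sum_congr rfl fun l _ => ?_
  ring

open Q278.E8 in
theorem isQC : IsQuantumColouring G 8 8 proj where
  hermitian v i := by
    ext j k
    rw [Matrix.conjTranspose_apply]
    simp only [proj]
    rw [star_div₀, mul_comm (A i (root v) k)]
    simp
  idempotent v i := by
    ext j k
    rw [proj_mul, dot_self]
    simp only [proj]
    push_cast
    ring
  complete v := by
    ext j k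
    rw [Matrix.sum_apply]
    simp only [proj]
    rw [← Finset.sum_div, ← Int.cast_sum, sum_A, dot_self, Matrix.one_apply]
    split_ifs <;> norm_num
  orthogonal v w h i := by
    ext j k
    rw [proj_mul, h.2]
    simp

/-- A quantum `c`-colouring of a graph with a clique of size `n` needs `c ≥ n`. -/
theorem clique_le {V : Type*} {G : SimpleGraph V} {n c d : ℕ} (hd : 1 ≤ d)
    {P : V → Fin c → Matrix (Fin d) (Fin d) ℂ} (hP : IsQuantumColouring G c d P)
    (K : Fin n → V) (hK : ∀ a b, a ≠ b → G.Adj (K a) (K b)) : n ≤ c := by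
  have key : ∀ i, (∑ a, (P (K a) i).trace).re ≤ d := by
    intro i
    let S : Matrix (Fin d) (Fin d) ℂ := ∑ a, P (K a) i
    have hSS : S * S = S := by
      simp only [S]
      rw [Finset.sum_mul_sum]
      refine Finset.sum_congr rfl fun a _ => ?_
      rw [Finset.sum_eq_single a]
      · exact hP.idempotent _ _
      · intro b _ hb
        exact hP.orthogonal _ _ (hK a b hb.symm) i
      · intro h
        exact absurd (Finset.mem_univ a) h
    have hSH : Sᴴ = S := by
      simp only [S]
      rw [Matrix.conjTranspose_sum]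
      exact Finset.sum_congr rfl fun a _ => hP.hermitian _ _
    have hQ : (1 - S)ᴴ * (1 - S) = 1 - S := by
      rw [Matrix.conjTranspose_sub, Matrix.conjTranspose_one, hSH, sub_mul, mul_sub, mul_sub, hSS]
      simp
    have htr : 0 ≤ ((1 - S).trace).re := by
      rw [← hQ]
      simp only [Matrix.trace, Matrix.diag_apply, Matrix.mul_apply, Matrix.conjTranspose_apply,
        Complex.re_sum]
      refine Finset.sum_nonneg fun j _ => Finset.sum_nonneg fun k _ => ?_
      rw [RCLike.star_def, ← Complex.normSq_eq_conj_mul_self, Complex.ofReal_re]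
      exact Complex.normSq_nonneg _
    rw [Matrix.trace_sub, Matrix.trace_one, Fintype.card_fin, Complex.sub_re,
      Complex.natCast_re] at htr
    have : (∑ a, (P (K a) i).trace) = S.trace := by
      simp only [S, Matrix.trace_sum]
    rw [this]
    linarith
  have h1 : ∑ i : Fin c, (∑ a, (P (K a) i).trace).re ≤ ∑ _i : Fin c, (d : ℝ) :=
    Finset.sum_le_sum fun i _ => key i
  have h2 : ∑ i : Fin c, (∑ a, (P (K a) i).trace).re = n * d := by
    rw [← Complex.re_sum, Finset.sum_comm]
    have : ∀ a : Fin n, ∑ i : Fin c, (P (K a) i).trace = (d : ℂ) := by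
      intro a
      rw [← Matrix.trace_sum, hP.complete, Matrix.trace_one, Fintype.card_fin]
    rw [Finset.sum_congr rfl fun a _ => this a]
    simp
  rw [h2] at h1
  simp only [Finset.sum_const, Finset.card_univ, Fintype.card_fin, nsmul_eq_mul] at h1
  have hd' : (0 : ℝ) < d := by exact_mod_cast hd
  have := le_of_mul_le_mul_right h1 hd'
  exact_mod_cast this

/-- eight pairwise orthogonal roots -/
def frame : Fin 8 → Fin 120 := ![0, 1, 26, 27, 44, 45, 54, 55]

open Q278.E8 in
theorem frame_adj : ∀ a b, a ≠ b → G.Adj (frame a) (frame b) := by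
  decide +kernel

open Q278.E8 in
theorem qchi_eq : quantumChromaticNumber G = 8 := by
  apply le_antisymm
  · exact Nat.sInf_le ⟨by norm_num, 8, by norm_num, proj, isQC⟩
  · refine le_csInf ⟨8, by norm_num, 8, by norm_num, proj, isQC⟩ ?_
    rintro c ⟨-, d, hd, P, hP⟩
    exact clique_le hd hP frame frame_adj

/-- **Main theorem.** There is a strongly regular graph, with parameters `(120, 63, 30, 36)`,
whose quantum chromatic number is `8` (witnessed in dimension `8`) while its chromatic number is
at least `14`; in particular `χ_q(G) < χ(G)`. -/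
theorem result :
    ∃ (G : SimpleGraph (Fin 120)) (_ : DecidableRel G.Adj),
      G.IsSRGWith 120 63 30 36 ∧
      (∃ P : Fin 120 → Fin 8 → Matrix (Fin 8) (Fin 8) ℂ, IsQuantumColouring G 8 8 P) ∧
      quantumChromaticNumber G = 8 ∧
      (14 : ℕ∞) ≤ G.chromaticNumber ∧
      (quantumChromaticNumber G : ℕ∞) < G.chromaticNumber := by
  refine ⟨Q278.E8.G, inferInstance, Q278.E8.srg, ⟨proj, isQC⟩, qchi_eq, Q278.E8.chi_ge, ?_⟩
  rw [qchi_eq]
  exact lt_of_lt_of_le (by norm_num) Q278.E8.chi_ge

end Pool.Agent.Results.MP_75a6b7_co.SrgQuantumGap
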